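import Pool.Agent.H73.SMD.Stmts

set_option autoImplicit false

open Set Filter Topology MeasureTheory Metric

namespace Pool.SMD

open Pool.PHS Pool.LPC

theorem ORD_thm : ORDStmt := by
  intro n ψ hψ
  have hb : ball (0 : ℂ) 2 ∈ 𝓝 (0 : ℂ) := ball_mem_nhds _ (by norm_num)
  have hA : AnalyticAt ℂ ψ 0 := hψ.analyticAt hb
  constructor
  · intro hne
    have hA' : AnalyticAt ℂ (fun u => ψ u - ψ 0) 0 := hA.sub analyticAt_const
    have hne' : ¬ ∀ᶠ u in 𝓝 (0 : ℂ), ψ u - ψ 0 = 0 := by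
      intro h
      exact hne (h.mono fun u hu => sub_eq_zero.mp hu)
    obtain ⟨m, g, hg, hg0, hev⟩ :=
      (hA'.exists_eventuallyEq_pow_smul_nonzero_iff).mpr hne'
    have hgpos : 0 < ‖g 0‖ := norm_pos_iff.mpr hg0
    have hm : 1 ≤ m := by
      rcases Nat.eq_zero_or_pos m with h | h
      · exfalso
        have := hev.self_of_nhds
        rw [h] at this
        simp at this
        exact hg0 this.symm
      · exact h
    have hcont : Tendsto (fun u => ‖g u‖) (𝓝 0) (𝓝 ‖g 0‖) := hg.continuousAt.norm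
    have e1 : ∀ᶠ u in 𝓝 (0 : ℂ), ‖g 0‖ / 2 < ‖g u‖ :=
      hcont.eventually (lt_mem_nhds (by linarith))
    have e2 : ∀ᶠ u in 𝓝 (0 : ℂ), ‖g u‖ < ‖g 0‖ + 1 :=
      hcont.eventually (gt_mem_nhds (by linarith))
    obtain ⟨κ, hκ, hκ'⟩ := Metric.eventually_nhds_iff_ball.mp (hev.and (e1.and e2))
    refine ⟨m, ‖g 0‖ / 2, ‖g 0‖ + 1, κ, hm, by linarith, by linarith, hκ, ?_⟩
    intro u hu
    obtain ⟨h1, h2, h3⟩ := hκ' u hu
    rw [h1, sub_zero, norm_smul, norm_pow]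
    have hp : 0 ≤ ‖u‖ ^ m := by positivity
    constructor
    · nlinarith
    · nlinarith
  · intro hd
    have hpos : 0 < ‖deriv ψ 0‖ := norm_pos_iff.mpr hd
    have hs : HasStrictDerivAt ψ (deriv ψ 0) 0 := hA.hasStrictDerivAt
    have ho := hs.isLittleO
    have hev := ho.def (c := ‖deriv ψ 0‖ / 2) (by linarith)
    rw [Metric.eventually_nhds_iff_ball] at hev
    obtain ⟨κ, hκ, hκ'⟩ := hev
    refine ⟨‖deriv ψ 0‖ / 2, 3 * ‖deriv ψ 0‖ / 2, κ, by linarith, by linarith, hκ, ?_⟩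
    intro u hu v hv
    have h := hκ' (u, v) (by
      rw [mem_ball, Prod.dist_eq]
      exact max_lt hu hv)
    simp only [ContinuousLinearMap.toSpanSingleton_apply] at h
    have h2 : ‖(u - v) • deriv ψ 0‖ = ‖u - v‖ * ‖deriv ψ 0‖ := norm_smul _ _
    have h3 : ‖(u - v) • deriv ψ 0‖ ≤ ‖ψ u - ψ v‖ + ‖ψ u - ψ v - (u - v) • deriv ψ 0‖ := by
      have := norm_sub_le (ψ u - ψ v) (ψ u - ψ v - (u - v) • deriv ψ 0)
      simpa using this
    have h4 : ‖ψ u - ψ v‖ ≤ ‖ψ u - ψ v - (u - v) • deriv ψ 0‖ + ‖(u - v) • deriv ψ 0‖ := by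
      have := norm_add_le (ψ u - ψ v - (u - v) • deriv ψ 0) ((u - v) • deriv ψ 0)
      simpa using this
    constructor
    · nlinarith
    · nlinarith

end Pool.SMD
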